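import Pool.Agent.Q206.PW.Stm

/-!
# PW-REC: the two relations are primitive recursive
-/

set_option autoImplicit false

namespace Pool.Agent.Q206.PW

open Primrec

/-- the tile with the coordinates `i`, `j`, counted from the lower left corner -/
def D (s : List Tile × ℕ × ℕ) (i j : ℕ) : Tile :=
  s.1.getD ((s.2.2 / s.1.length ^ (i * (2 * s.2.1 + 1) + j)) % s.1.length) 0

/-- the number `c` describes a tiling of the square -/
def BT (s : List Tile × ℕ × ℕ) : Prop :=
  ∀ i < 2 * s.2.1 + 1, ∀ j < 2 * s.2.1 + 1, D s i j ∈ s.1 ∧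
    (i + 1 < 2 * s.2.1 + 1 → (D s i j).2.1 = (D s (i + 1) j).1) ∧
    (j + 1 < 2 * s.2.1 + 1 → (D s i j).2.2.2 = (D s i (j + 1)).2.2.1)

/-- local period -/
def PER (s : List Tile × ℕ × ℕ) (a b k i j : ℕ) : Prop :=
  ∀ i' < 2 * k + 1, ∀ j' < 2 * k + 1,
    ((b ≤ i' + i ∧ i' + i ≤ 2 * k + b) ∧ (b ≤ j' + j ∧ j' + j ≤ 2 * k + b)) →
      D s (i' + i + a - b) (j' + j + a - b) = D s (i' + a) (j' + a)

section prim

variable {α : Type} [Primcodable α]

lemma exLt {f : α → ℕ} {R : ℕ → α → Prop} (hf : Primrec f)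
    (hR : PrimrecPred (fun x : ℕ × α => R x.1 x.2)) : PrimrecPred (fun a => ∃ x < f a, R x a) :=
  ((show PrimrecRel R from hR).exists_mem_list.comp (Primrec.list_range.comp hf) Primrec.id).of_eq (by simp)

lemma allLt {f : α → ℕ} {R : ℕ → α → Prop} (hf : Primrec f)
    (hR : PrimrecPred (fun x : ℕ × α => R x.1 x.2)) : PrimrecPred (fun a => ∀ x < f a, R x a) :=
  ((show PrimrecRel R from hR).forall_mem_list.comp (Primrec.list_range.comp hf) Primrec.id).of_eq (by simp)

lemma impP {p q : α → Prop} (hp : PrimrecPred p) (hq : PrimrecPred q) :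
    PrimrecPred (fun a => p a → q a) :=
  (hp.not.or hq).of_eq (fun a => by tauto)

lemma powP {f g : α → ℕ} (hf : Primrec f) (hg : Primrec g) : Primrec (fun a => f a ^ g a) :=
  (Primrec₂.unpaired'.1 Nat.Primrec.pow).comp hf hg

lemma memP {f : α → Tile} {g : α → List Tile} (hf : Primrec f) (hg : Primrec g) :
    PrimrecPred (fun a => f a ∈ g a) :=
  ((PrimrecRel.exists_mem_list (α := Tile) (β := Tile) (R := Eq) Primrec.eq).comp hg hf).of_eq
    (by simp)

lemma addP {f g : α → ℕ} (hf : Primrec f) (hg : Primrec g) : Primrec (fun a => f a + g a) :=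
  Primrec.nat_add.comp hf hg

lemma subP {f g : α → ℕ} (hf : Primrec f) (hg : Primrec g) : Primrec (fun a => f a - g a) :=
  Primrec.nat_sub.comp hf hg

lemma mulP {f g : α → ℕ} (hf : Primrec f) (hg : Primrec g) : Primrec (fun a => f a * g a) :=
  Primrec.nat_mul.comp hf hg

lemma leP {f g : α → ℕ} (hf : Primrec f) (hg : Primrec g) : PrimrecPred (fun a => f a ≤ g a) :=
  Primrec.nat_le.comp hf hg

lemma ltP {f g : α → ℕ} (hf : Primrec f) (hg : Primrec g) : PrimrecPred (fun a => f a < g a) :=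
  Primrec.nat_lt.comp hf hg

lemma eqP {β : Type} [Primcodable β] {f g : α → β} (hf : Primrec f) (hg : Primrec g) :
    PrimrecPred (fun a => f a = g a) :=
  Primrec.eq.comp hf hg

lemma oddP {f : α → ℕ} (hf : Primrec f) : Primrec (fun a => 2 * f a + 1) :=
  Primrec.nat_double_succ.comp hf

lemma DP {s : α → List Tile × ℕ × ℕ} {i j : α → ℕ} (hs : Primrec s) (hi : Primrec i)
    (hj : Primrec j) : Primrec (fun a => D (s a) (i a) (j a)) := by
  have h1 : Primrec (fun a => (s a).1) := Primrec.fst.comp hs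
  have h2 : Primrec (fun a => (s a).2.1) := Primrec.fst.comp (Primrec.snd.comp hs)
  have h3 : Primrec (fun a => (s a).2.2) := Primrec.snd.comp (Primrec.snd.comp hs)
  have h4 : Primrec (fun a => (s a).1.length) := Primrec.list_length.comp h1
  have h5 := addP (mulP hi (oddP h2)) hj
  have h6 := Primrec.nat_mod.comp (Primrec.nat_div.comp h3 (powP h4 h5)) h4
  exact (Primrec.list_getD (0 : Tile)).comp h1 h6

lemma BTP {s : α → List Tile × ℕ × ℕ} (hs : Primrec s) : PrimrecPred (fun a => BT (s a)) := by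
  have h0 : Primrec (fun a => 2 * (s a).2.1 + 1) := oddP (Primrec.fst.comp (Primrec.snd.comp hs))
  refine allLt (α := α) (R := fun (i : ℕ) (a : α) => ∀ j < 2 * (s a).2.1 + 1, D (s a) i j ∈ (s a).1 ∧
    (i + 1 < 2 * (s a).2.1 + 1 → (D (s a) i j).2.1 = (D (s a) (i + 1) j).1) ∧
    (j + 1 < 2 * (s a).2.1 + 1 → (D (s a) i j).2.2.2 = (D (s a) i (j + 1)).2.2.1)) h0 ?_
  beta_reduce
  -- variables `x : ℕ × α`
  have hs1 : Primrec (fun x : ℕ × α => s x.2) := hs.comp Primrec.snd
  have h1 : Primrec (fun x : ℕ × α => 2 * (s x.2).2.1 + 1) := h0.comp Primrec.snd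
  refine allLt (α := ℕ × α) (R := fun (j : ℕ) (x : ℕ × α) => D (s x.2) x.1 j ∈ (s x.2).1 ∧
    (x.1 + 1 < 2 * (s x.2).2.1 + 1 → (D (s x.2) x.1 j).2.1 = (D (s x.2) (x.1 + 1) j).1) ∧
    (j + 1 < 2 * (s x.2).2.1 + 1 → (D (s x.2) x.1 j).2.2.2 = (D (s x.2) x.1 (j + 1)).2.2.1)) h1 ?_
  beta_reduce
  -- variables `y : ℕ × ℕ × α`
  have hs2 : Primrec (fun y : ℕ × ℕ × α => s y.2.2) := hs1.comp Primrec.snd
  have h2 : Primrec (fun y : ℕ × ℕ × α => 2 * (s y.2.2).2.1 + 1) := h1.comp Primrec.snd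
  have hi : Primrec (fun y : ℕ × ℕ × α => y.2.1) := Primrec.fst.comp Primrec.snd
  have hj : Primrec (fun y : ℕ × ℕ × α => y.1) := Primrec.fst
  have hi1 : Primrec (fun y : ℕ × ℕ × α => y.2.1 + 1) := Primrec.succ.comp hi
  have hj1 : Primrec (fun y : ℕ × ℕ × α => y.1 + 1) := Primrec.succ.comp hj
  have hD := DP hs2 hi hj
  have hDi := DP hs2 hi1 hj
  have hDj := DP hs2 hi hj1
  refine (memP hD (Primrec.fst.comp hs2)).and ((impP (ltP hi1 h2) ?_).and (impP (ltP hj1 h2) ?_))
  · exact eqP (Primrec.fst.comp (Primrec.snd.comp hD)) (Primrec.fst.comp hDi)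
  · exact eqP (Primrec.snd.comp (Primrec.snd.comp (Primrec.snd.comp hD)))
      (Primrec.fst.comp (Primrec.snd.comp (Primrec.snd.comp hDj)))

lemma PERP {s : α → List Tile × ℕ × ℕ} {a b k i j : α → ℕ} (hs : Primrec s) (ha : Primrec a)
    (hb : Primrec b) (hk : Primrec k) (hi : Primrec i) (hj : Primrec j) :
    PrimrecPred (fun z => PER (s z) (a z) (b z) (k z) (i z) (j z)) := by
  refine allLt (α := α) (R := fun (i' : ℕ) (z : α) => ∀ j' < 2 * k z + 1,
    ((b z ≤ i' + i z ∧ i' + i z ≤ 2 * k z + b z) ∧ (b z ≤ j' + j z ∧ j' + j z ≤ 2 * k z + b z)) →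
      D (s z) (i' + i z + a z - b z) (j' + j z + a z - b z) = D (s z) (i' + a z) (j' + a z))
    (oddP hk) ?_
  beta_reduce
  refine allLt (α := ℕ × α) (R := fun (j' : ℕ) (x : ℕ × α) =>
    ((b x.2 ≤ x.1 + i x.2 ∧ x.1 + i x.2 ≤ 2 * k x.2 + b x.2) ∧
      (b x.2 ≤ j' + j x.2 ∧ j' + j x.2 ≤ 2 * k x.2 + b x.2)) →
      D (s x.2) (x.1 + i x.2 + a x.2 - b x.2) (j' + j x.2 + a x.2 - b x.2) =
        D (s x.2) (x.1 + a x.2) (j' + a x.2)) ((oddP hk).comp Primrec.snd) ?_
  beta_reduce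
  have hp : Primrec (fun y : ℕ × ℕ × α => y.2.2) := Primrec.snd.comp Primrec.snd
  have hs' : Primrec (fun y : ℕ × ℕ × α => s y.2.2) := hs.comp hp
  have ha' : Primrec (fun y : ℕ × ℕ × α => a y.2.2) := ha.comp hp
  have hb' : Primrec (fun y : ℕ × ℕ × α => b y.2.2) := hb.comp hp
  have hk' : Primrec (fun y : ℕ × ℕ × α => k y.2.2) := hk.comp hp
  have hi' : Primrec (fun y : ℕ × ℕ × α => i y.2.2) := hi.comp hp
  have hj' : Primrec (fun y : ℕ × ℕ × α => j y.2.2) := hj.comp hp
  have hx : Primrec (fun y : ℕ × ℕ × α => y.2.1) := Primrec.fst.comp Primrec.snd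
  have hy : Primrec (fun y : ℕ × ℕ × α => y.1) := Primrec.fst
  have h2k : Primrec (fun y : ℕ × ℕ × α => 2 * k y.2.2 + b y.2.2) :=
    addP (Primrec.nat_double.comp hk') hb'
  have hxi := addP hx hi'
  have hyj := addP hy hj'
  refine impP (((leP hb' hxi).and (leP hxi h2k)).and ((leP hb' hyj).and (leP hyj h2k))) ?_
  exact eqP (DP hs' (subP (addP hxi ha') hb') (subP (addP hyj ha') hb'))
    (DP hs' (addP hx ha') (addP hy ha'))

end prim

/-! ## Equivalences -/

lemma dec_eq (S : List Tile) (n c : ℕ) (u : Pt) :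
    dec S n c u = D (S, n, c) (u.1 + n).toNat (u.2 + n).toNat := rfl

lemma box_iff (k : ℕ) (u : Pt) :
    Box k 0 u ↔ (-(k : ℤ) ≤ u.1 ∧ u.1 ≤ k) ∧ (-(k : ℤ) ≤ u.2 ∧ u.2 ≤ k) := by
  unfold Box
  simp only [Prod.fst_zero, Prod.snd_zero, sub_zero, abs_le]

lemma BT_iff (S : List Tile) (n c : ℕ) : BoxTiling S n (dec S n c) ↔ BT (S, n, c) := by
  constructor
  · rintro ⟨h1, h2, h3⟩ i hi j hj
    have hi' : i < 2 * n + 1 := hi
    have hj' : j < 2 * n + 1 := hj
    have hb : Box n 0 ((i : ℤ) - n, (j : ℤ) - n) := by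
      rw [box_iff]
      simp only
      omega
    have e1 : ((i : ℤ) - n + n).toNat = i := by omega
    have e2 : ((j : ℤ) - n + n).toNat = j := by omega
    have e3 : ((i : ℤ) - n + 1 + n).toNat = i + 1 := by omega
    have e4 : ((j : ℤ) - n + 1 + n).toNat = j + 1 := by omega
    have e5 : ((i : ℤ) - n + 0 + n).toNat = i := by omega
    have e6 : ((j : ℤ) - n + 0 + n).toNat = j := by omega
    refine ⟨?_, ?_, ?_⟩
    · have := h1 _ hb
      rw [dec_eq] at this
      simp only [e1, e2] at this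
      exact this
    · intro hi1
      have hi1' : i + 1 < 2 * n + 1 := hi1
      have := h2 _ hb (by
        rw [box_iff]
        simp only [Prod.mk_add_mk]
        omega)
      rw [dec_eq, dec_eq] at this
      simp only [Prod.mk_add_mk, e1, e2, e3, e6] at this
      exact this
    · intro hj1
      have hj1' : j + 1 < 2 * n + 1 := hj1
      have := h3 _ hb (by
        rw [box_iff]
        simp only [Prod.mk_add_mk]
        omega)
      rw [dec_eq, dec_eq] at this
      simp only [Prod.mk_add_mk, e1, e2, e4, e5] at this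
      exact this
  · intro h
    refine ⟨?_, ?_, ?_⟩
    · intro u hu
      rw [box_iff] at hu
      rw [dec_eq]
      have := h (u.1 + n).toNat (by simp only; omega) (u.2 + n).toNat (by simp only; omega)
      exact this.1
    · intro u hu hu'
      rw [box_iff] at hu hu'
      simp only [Prod.fst_add, Prod.snd_add] at hu'
      rw [dec_eq, dec_eq]
      have := h (u.1 + n).toNat (by simp only; omega) (u.2 + n).toNat (by simp only; omega)
      have h2 := this.2.1 (by simp only; omega)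
      have e1 : ((u + (1, 0)).1 + (n : ℤ)).toNat = (u.1 + n).toNat + 1 := by
        simp only [Prod.fst_add]
        omega
      have e2 : ((u + (1, 0)).2 + (n : ℤ)).toNat = (u.2 + n).toNat := by
        simp only [Prod.snd_add]
        omega
      rw [e1, e2]
      exact h2
    · intro u hu hu'
      rw [box_iff] at hu hu'
      simp only [Prod.fst_add, Prod.snd_add] at hu'
      rw [dec_eq, dec_eq]
      have := h (u.1 + n).toNat (by simp only; omega) (u.2 + n).toNat (by simp only; omega)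
      have h2 := this.2.2 (by simp only; omega)
      have e1 : ((u + (0, 1)).1 + (n : ℤ)).toNat = (u.1 + n).toNat := by
        simp only [Prod.fst_add]
        omega
      have e2 : ((u + (0, 1)).2 + (n : ℤ)).toNat = (u.2 + n).toNat + 1 := by
        simp only [Prod.snd_add]
        omega
      rw [e1, e2]
      exact h2

lemma BoxTiling_congr (S : List Tile) (n : ℕ) (T T' : Pt → Tile)
    (h : ∀ u, Box n 0 u → T' u = T u) (hT : BoxTiling S n T) : BoxTiling S n T' := by
  obtain ⟨h1, h2, h3⟩ := hT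
  refine ⟨?_, ?_, ?_⟩
  · intro u hu
    rw [h u hu]
    exact h1 u hu
  · intro u hu hu'
    rw [h u hu, h _ hu']
    exact h2 u hu hu'
  · intro u hu hu'
    rw [h u hu, h _ hu']
    exact h3 u hu hu'

lemma PER_iff (S : List Tile) (a b k c i j : ℕ) :
    LocPer (dec S (a + k) c) ((i : ℤ) - b, (j : ℤ) - b) 0 k ↔ PER (S, a + k, c) a b k i j := by
  constructor
  · intro h i' hi' j' hj' hb
    have h1 := h ((i' : ℤ) - k, (j' : ℤ) - k) (by
      rw [box_iff]
      simp only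
      omega) (by
      rw [box_iff]
      simp only [Prod.mk_add_mk]
      omega)
    rw [dec_eq, dec_eq] at h1
    simp only [Prod.mk_add_mk] at h1
    have e1 : ((i' : ℤ) - k + ((i : ℤ) - b) + ((a + k : ℕ) : ℤ)).toNat = i' + i + a - b := by
      push_cast
      omega
    have e2 : ((j' : ℤ) - k + ((j : ℤ) - b) + ((a + k : ℕ) : ℤ)).toNat = j' + j + a - b := by
      push_cast
      omega
    have e3 : ((i' : ℤ) - k + ((a + k : ℕ) : ℤ)).toNat = i' + a := by
      push_cast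
      omega
    have e4 : ((j' : ℤ) - k + ((a + k : ℕ) : ℤ)).toNat = j' + a := by
      push_cast
      omega
    rw [e1, e2, e3, e4] at h1
    exact h1
  · intro h u hu hu'
    rw [box_iff] at hu hu'
    simp only [Prod.fst_add, Prod.snd_add] at hu'
    have h1 := h (u.1 + k).toNat (by omega) (u.2 + k).toNat (by omega) (by omega)
    rw [dec_eq, dec_eq]
    have e1 : ((u + ((i : ℤ) - b, (j : ℤ) - b)).1 + ((a + k : ℕ) : ℤ)).toNat =
        (u.1 + k).toNat + i + a - b := by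
      simp only [Prod.fst_add]
      push_cast
      omega
    have e2 : ((u + ((i : ℤ) - b, (j : ℤ) - b)).2 + ((a + k : ℕ) : ℤ)).toNat =
        (u.2 + k).toNat + j + a - b := by
      simp only [Prod.snd_add]
      push_cast
      omega
    have e3 : (u.1 + ((a + k : ℕ) : ℤ)).toNat = (u.1 + k).toNat + a := by
      push_cast
      omega
    have e4 : (u.2 + ((a + k : ℕ) : ℤ)).toNat = (u.2 + k).toNat + a := by
      push_cast
      omega
    rw [e1, e2, e3, e4]
    exact h1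

lemma LocPer_congr (T T' : Pt → Tile) (v : Pt) (k : ℕ) (h : ∀ u, Box k 0 u → T' u = T u)
    (hT : LocPer T v 0 k) : LocPer T' v 0 k := by
  intro u hu hu'
  rw [h u hu, h _ hu']
  exact hT u hu hu'

lemma Box_mono {k n : ℕ} (h : k ≤ n) (u : Pt) (hu : Box k 0 u) : Box n 0 u := by
  rw [box_iff] at hu ⊢
  omega

theorem t_REC : S_REC := by
  intro hE
  constructor
  · -- first relation
    have h1 : PrimrecPred (fun q : List Tile × ℕ =>
        ∃ c < q.1.length ^ ((2 * q.2 + 1) ^ 2), BT (q.1, q.2, c)) := by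
      refine exLt (α := List Tile × ℕ) (R := fun (c : ℕ) (q : List Tile × ℕ) => BT (q.1, q.2, c)) ?_ ?_
      · exact powP (Primrec.list_length.comp Primrec.fst) (powP (oddP Primrec.snd) (Primrec.const 2))
      · beta_reduce
        refine BTP (α := ℕ × List Tile × ℕ) ?_
        exact Primrec.pair (Primrec.fst.comp Primrec.snd)
          (Primrec.pair (Primrec.snd.comp Primrec.snd) Primrec.fst)
    refine h1.of_eq ?_
    rintro ⟨S, n⟩
    constructor
    · rintro ⟨c, _, hc⟩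
      exact ⟨dec S n c, (BT_iff S n c).2 hc⟩
    · rintro ⟨T, hT⟩
      obtain ⟨c, hc, hcT⟩ := hE S n T hT.1
      exact ⟨c, hc, (BT_iff S n c).1 (BoxTiling_congr S n T _ hcT hT)⟩
  · -- second relation
    have h2 : PrimrecPred (fun q : List Tile × (ℕ × ℕ × ℕ) =>
        ∀ c < q.1.length ^ ((2 * (q.2.1 + q.2.2.2) + 1) ^ 2), BT (q.1, q.2.1 + q.2.2.2, c) →
          ∃ i < 2 * q.2.2.1 + 1, ∃ j < 2 * q.2.2.1 + 1, (i ≠ q.2.2.1 ∨ j ≠ q.2.2.1) ∧
            PER (q.1, q.2.1 + q.2.2.2, c) q.2.1 q.2.2.1 q.2.2.2 i j) := by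
      have ha : Primrec (fun q : List Tile × (ℕ × ℕ × ℕ) => q.2.1) := Primrec.fst.comp Primrec.snd
      have hb : Primrec (fun q : List Tile × (ℕ × ℕ × ℕ) => q.2.2.1) :=
        Primrec.fst.comp (Primrec.snd.comp Primrec.snd)
      have hk : Primrec (fun q : List Tile × (ℕ × ℕ × ℕ) => q.2.2.2) :=
        Primrec.snd.comp (Primrec.snd.comp Primrec.snd)
      have hak := addP ha hk
      refine allLt (α := List Tile × (ℕ × ℕ × ℕ)) (R := fun (c : ℕ) (q : List Tile × (ℕ × ℕ × ℕ)) => BT (q.1, q.2.1 + q.2.2.2, c) →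
          ∃ i < 2 * q.2.2.1 + 1, ∃ j < 2 * q.2.2.1 + 1, (i ≠ q.2.2.1 ∨ j ≠ q.2.2.1) ∧
            PER (q.1, q.2.1 + q.2.2.2, c) q.2.1 q.2.2.1 q.2.2.2 i j) ?_ ?_
      · exact powP (Primrec.list_length.comp Primrec.fst) (powP (oddP hak) (Primrec.const 2))
      · beta_reduce
        -- variables `x : ℕ × List Tile × ℕ × ℕ × ℕ`
        have hs : Primrec (fun x : ℕ × List Tile × (ℕ × ℕ × ℕ) =>
            ((x.2.1, x.2.2.1 + x.2.2.2.2, x.1) : List Tile × ℕ × ℕ)) :=
          Primrec.pair (Primrec.fst.comp Primrec.snd)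
            (Primrec.pair (hak.comp Primrec.snd) Primrec.fst)
        refine impP (BTP hs) ?_
        have ha1 := ha.comp (Primrec.snd (α := ℕ) (β := List Tile × (ℕ × ℕ × ℕ)))
        have hb1 := hb.comp (Primrec.snd (α := ℕ) (β := List Tile × (ℕ × ℕ × ℕ)))
        have hk1 := hk.comp (Primrec.snd (α := ℕ) (β := List Tile × (ℕ × ℕ × ℕ)))
        refine exLt (α := ℕ × List Tile × (ℕ × ℕ × ℕ)) (R := fun (i : ℕ) (x : ℕ × List Tile × (ℕ × ℕ × ℕ)) =>
          ∃ j < 2 * x.2.2.2.1 + 1, (i ≠ x.2.2.2.1 ∨ j ≠ x.2.2.2.1) ∧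
            PER (x.2.1, x.2.2.1 + x.2.2.2.2, x.1) x.2.2.1 x.2.2.2.1 x.2.2.2.2 i j) (oddP hb1) ?_
        beta_reduce
        have ha2 := ha1.comp (Primrec.snd (α := ℕ) (β := ℕ × List Tile × (ℕ × ℕ × ℕ)))
        have hb2 := hb1.comp (Primrec.snd (α := ℕ) (β := ℕ × List Tile × (ℕ × ℕ × ℕ)))
        have hk2 := hk1.comp (Primrec.snd (α := ℕ) (β := ℕ × List Tile × (ℕ × ℕ × ℕ)))
        have hs2 := hs.comp (Primrec.snd (α := ℕ) (β := ℕ × List Tile × (ℕ × ℕ × ℕ)))
        refine exLt (α := ℕ × ℕ × List Tile × (ℕ × ℕ × ℕ)) (R := fun (j : ℕ) (y : ℕ × ℕ × List Tile × (ℕ × ℕ × ℕ)) =>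
          (y.1 ≠ y.2.2.2.2.1 ∨ j ≠ y.2.2.2.2.1) ∧
            PER (y.2.2.1, y.2.2.2.1 + y.2.2.2.2.2, y.2.1) y.2.2.2.1 y.2.2.2.2.1 y.2.2.2.2.2 y.1 j)
          (oddP hb2) ?_
        beta_reduce
        have ha3 := ha2.comp (Primrec.snd (α := ℕ) (β := ℕ × ℕ × List Tile × (ℕ × ℕ × ℕ)))
        have hb3 := hb2.comp (Primrec.snd (α := ℕ) (β := ℕ × ℕ × List Tile × (ℕ × ℕ × ℕ)))
        have hk3 := hk2.comp (Primrec.snd (α := ℕ) (β := ℕ × ℕ × List Tile × (ℕ × ℕ × ℕ)))
        have hs3 := hs2.comp (Primrec.snd (α := ℕ) (β := ℕ × ℕ × List Tile × (ℕ × ℕ × ℕ)))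
        have hi3 : Primrec (fun z : ℕ × ℕ × ℕ × List Tile × (ℕ × ℕ × ℕ) => z.2.1) :=
          Primrec.fst.comp Primrec.snd
        have hj3 : Primrec (fun z : ℕ × ℕ × ℕ × List Tile × (ℕ × ℕ × ℕ) => z.1) := Primrec.fst
        exact (((eqP hi3 hb3).not).or ((eqP hj3 hb3).not)).and (PERP hs3 ha3 hb3 hk3 hi3 hj3)
    refine h2.of_eq ?_
    rintro ⟨S, a, b, k⟩
    simp only
    constructor
    · intro h T hT
      obtain ⟨c, hc, hcT⟩ := hE S (a + k) T hT.1
      obtain ⟨i, hi, j, hj, hij, hP⟩ := h c hc ((BT_iff S (a + k) c).1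
        (BoxTiling_congr S (a + k) T _ hcT hT))
      refine ⟨((i : ℤ) - b, (j : ℤ) - b), ?_, ?_, ?_⟩
      · intro h0
        rw [Prod.mk_eq_zero] at h0
        omega
      · rw [box_iff]
        simp only
        omega
      · refine LocPer_congr (dec S (a + k) c) T _ k ?_ ((PER_iff S a b k c i j).2 hP)
        intro u hu
        exact (hcT u (Box_mono (by omega) u hu)).symm
    · intro h c _ hB
      obtain ⟨v, hv0, hvb, hvP⟩ := h (dec S (a + k) c) ((BT_iff S (a + k) c).2 hB)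
      rw [box_iff] at hvb
      have e : v = (((v.1 + b).toNat : ℤ) - b, ((v.2 + b).toNat : ℤ) - b) := by
        apply Prod.ext
        · simp only
          omega
        · simp only
          omega
      refine ⟨(v.1 + b).toNat, by omega, (v.2 + b).toNat, by omega, ?_, ?_⟩
      · by_contra hcon
        apply hv0
        rw [Prod.ext_iff]
        simp only [Prod.fst_zero, Prod.snd_zero]
        omega
      · rw [← PER_iff, ← e]
        exact hvP

end Pool.Agent.Q206.PW
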